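import Mathlib
import Pool.Agent.H234.ST.Defs

/-!
# ST3: almost every point of a Lipschitz path is a tangent point
-/

set_option autoImplicit false

open MeasureTheory Set Metric Filter Topology
open scoped ENNReal NNReal
open Pool.Agent.H234.ST

namespace Pool.Agent.H195.ST

/-- the image of the critical points is null -/
theorem crit (γ : ℝ → ℂ) (Z : Set ℝ) (hZ : Z ⊆ Icc (0 : ℝ) 1)
    (hd : ∀ t ∈ Z, HasDerivAt γ 0 t) : μH[1] (γ '' Z) = 0 := by
  have key : ∀ ε : ℝ≥0, ε ≠ 0 → μH[1] (γ '' Z) ≤ ε := by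
    intro ε hε
    obtain ⟨t, A, hdis, hmeas, hcov, happ, hA⟩ :=
      exists_partition_approximatesLinearOn_of_hasFDerivWithinAt γ Z (fun _ => (0 : ℝ →L[ℝ] ℂ))
        (fun x hx => by
          have h := (hd x hx).hasFDerivAt.hasFDerivWithinAt (s := Z)
          have h0 : ContinuousLinearMap.toSpanSingleton ℝ (0 : ℂ) = 0 := by
            ext; simp
          rwa [h0] at h)
        (fun _ => ε) (fun _ => hε)
    rcases Z.eq_empty_or_nonempty with hemp | hne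
    · simp [hemp]
    have h1 : ∀ n, μH[1] (γ '' (Z ∩ t n)) ≤ ε * volume (Icc (0 : ℝ) 1 ∩ t n) := by
      intro n
      obtain ⟨y, _, hy⟩ := hA hne n
      have h2 := happ n
      rw [hy, ApproximatesLinearOn.approximatesLinearOn_iff_lipschitzOnWith] at h2
      have h3 : LipschitzOnWith ε γ (Z ∩ t n) := by
        have : (γ - ⇑(0 : ℝ →L[ℝ] ℂ)) = γ := by ext x; simp
        rwa [this] at h2
      have h4 := h3.hausdorffMeasure_image_le (d := 1) zero_le_one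
      rw [ENNReal.rpow_one, hausdorffMeasure_real] at h4
      refine h4.trans ?_
      gcongr
    have h5 : γ '' Z ⊆ ⋃ n, γ '' (Z ∩ t n) := by
      rintro _ ⟨x, hx, rfl⟩
      obtain ⟨n, hn⟩ := mem_iUnion.1 (hcov hx)
      exact mem_iUnion.2 ⟨n, x, ⟨hx, hn⟩, rfl⟩
    calc μH[1] (γ '' Z) ≤ μH[1] (⋃ n, γ '' (Z ∩ t n)) := measure_mono h5
      _ ≤ ∑' n, μH[1] (γ '' (Z ∩ t n)) := measure_iUnion_le _
      _ ≤ ∑' n, ε * volume (Icc (0 : ℝ) 1 ∩ t n) := ENNReal.tsum_le_tsum h1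
      _ = ε * ∑' n, volume (Icc (0 : ℝ) 1 ∩ t n) := ENNReal.tsum_mul_left
      _ = ε * volume (⋃ n, Icc (0 : ℝ) 1 ∩ t n) := by
          rw [measure_iUnion]
          · intro i j hij
            exact (hdis hij).mono inter_subset_right inter_subset_right
          · intro n; exact measurableSet_Icc.inter (hmeas n)
      _ ≤ ε * volume (Icc (0 : ℝ) 1) := by
          gcongr
          exact iUnion_subset fun n => inter_subset_left
      _ = ε := by rw [Real.volume_Icc]; simp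
  by_contra hne
  have hpos : 0 < μH[1] (γ '' Z) := pos_iff_ne_zero.2 hne
  obtain ⟨ε, hε0, hε⟩ := ENNReal.lt_iff_exists_nnreal_btwn.1 hpos
  have hε0' : ε ≠ 0 := by
    rintro rfl; simp at hε0
  exact absurd (key ε hε0') (not_le.2 hε)

/-- a point with nonzero derivative is a tangent point -/
theorem tan_of_deriv (S : Set ℂ) (γ : ℝ → ℂ) (hS : ∀ t ∈ Icc (0 : ℝ) 1, γ t ∈ S) {t₀ : ℝ}
    (ht₀ : t₀ ∈ Ioo (0 : ℝ) 1) {v : ℂ} (hv : v ≠ 0) (hd : HasDerivAt γ v t₀) : Tan S (γ t₀) := by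
  have hv0 : 0 < ‖v‖ := norm_pos_iff.2 hv
  refine ⟨(‖v‖)⁻¹ • v, ?_, ?_⟩
  · rw [norm_smul, norm_inv, norm_norm, inv_mul_cancel₀ hv0.ne']
  intro η hη
  have h1 : ∀ᶠ s in 𝓝 t₀, ‖γ s - γ t₀ - (s - t₀) • v‖ ≤ (η * ‖v‖) * ‖s - t₀‖ := by
    have h := hasDerivAt_iff_isLittleO.1 hd
    exact h.def (mul_pos hη hv0)
  have h2 : ∀ᶠ s in 𝓝 t₀, s ∈ Ioo (0 : ℝ) 1 := isOpen_Ioo.mem_nhds ht₀
  obtain ⟨ρ, hρ, h3⟩ := Metric.eventually_nhds_iff.1 (h1.and h2)
  refine ⟨‖v‖ * ρ, mul_pos hv0 hρ, ?_⟩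
  intro r hr0 hr t ht
  have h4 : dist (t₀ + t / ‖v‖) t₀ < ρ := by
    rw [Real.dist_eq, add_sub_cancel_left, abs_div, abs_of_pos hv0, div_lt_iff₀ hv0]
    linarith [mul_comm ρ ‖v‖]
  obtain ⟨h5, h6⟩ := h3 h4
  refine ⟨γ (t₀ + t / ‖v‖), hS _ ⟨h6.1.le, h6.2.le⟩, ?_⟩
  rw [add_sub_cancel_left] at h5
  rw [dist_eq_norm]
  have h7 : γ (t₀ + t / ‖v‖) - (γ t₀ + t • (‖v‖)⁻¹ • v) =
      γ (t₀ + t / ‖v‖) - γ t₀ - (t / ‖v‖) • v := by
    rw [smul_smul, ← div_eq_mul_inv]; ring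
  rw [h7]
  refine h5.trans ?_
  rw [Real.norm_eq_abs, abs_div, abs_of_pos hv0]
  have h8 : η * ‖v‖ * (|t| / ‖v‖) = η * |t| := by field_simp
  rw [h8]
  exact mul_le_mul_of_nonneg_left ht hη.le

/-- ST3 -/
theorem path : S_Path := by
  intro S γ L hS hL
  set K : ℝ≥0 := Real.toNNReal L with hK
  have hLip : LipschitzOnWith K γ (Icc (0 : ℝ) 1) := by
    apply LipschitzOnWith.of_dist_le_mul
    intro s hs t ht
    refine (hL s hs t ht).trans ?_
    rw [Real.dist_eq]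
    gcongr
    exact Real.le_coe_toNNReal L
  -- points of non-differentiability
  set N : Set ℝ := {t | t ∈ Icc (0 : ℝ) 1 ∧ (t = 0 ∨ t = 1 ∨ ¬ DifferentiableAt ℝ γ t)} with hN
  have hNnull : volume N = 0 := by
    have h1 := (hLip.locallyBoundedVariationOn).ae_differentiableWithinAt_of_mem
    have h2 : ∀ᵐ t : ℝ, t ≠ 0 := by
      rw [ae_iff]; simp
    have h3 : ∀ᵐ t : ℝ, t ≠ 1 := by
      rw [ae_iff]; simp
    have h4 : ∀ᵐ t : ℝ, t ∉ N := by
      filter_upwards [h1, h2, h3] with t ht1 ht2 ht3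
      rintro ⟨ht, h | h | h⟩
      · exact ht2 h
      · exact ht3 h
      · apply h
        apply (ht1 ht).differentiableAt
        apply Icc_mem_nhds
        · exact lt_of_le_of_ne ht.1 (Ne.symm ht2)
        · exact lt_of_le_of_ne ht.2 ht3
    rw [ae_iff] at h4
    simpa using h4
  have hNim : μH[1] (γ '' N) = 0 := by
    have h1 := (hLip.mono (fun t ht => ht.1 : N ⊆ Icc (0 : ℝ) 1)).hausdorffMeasure_image_le
      (d := 1) zero_le_one
    rw [hausdorffMeasure_real, hNnull, mul_zero] at h1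
    exact le_antisymm h1 zero_le
  set Z : Set ℝ := {t | t ∈ Icc (0 : ℝ) 1 ∧ HasDerivAt γ 0 t} with hZ
  have hZim : μH[1] (γ '' Z) = 0 := crit γ Z (fun t ht => ht.1) (fun t ht => ht.2)
  refine measure_mono_null ?_ (measure_union_null hNim hZim)
  rintro x ⟨⟨t, ht, rfl⟩, hx⟩
  by_cases hN' : t ∈ N
  · exact Or.inl ⟨t, hN', rfl⟩
  · right
    have h0 : t ≠ 0 := fun h => hN' ⟨ht, Or.inl h⟩
    have h1 : t ≠ 1 := fun h => hN' ⟨ht, Or.inr (Or.inl h)⟩
    have hd : DifferentiableAt ℝ γ t := by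
      by_contra h
      exact hN' ⟨ht, Or.inr (Or.inr h)⟩
    have hder : deriv γ t = 0 := by
      by_contra h
      exact hx (tan_of_deriv S γ hS ⟨lt_of_le_of_ne ht.1 (Ne.symm h0), lt_of_le_of_ne ht.2 h1⟩ h
        hd.hasDerivAt)
    refine ⟨t, ⟨ht, ?_⟩, rfl⟩
    have := hd.hasDerivAt
    rwa [hder] at this

end Pool.Agent.H195.ST
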